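import Mathlib

/-!
Random explicit integrals: polynomials given by coefficients, the zero set is a null set.
-/

set_option autoImplicit false

namespace Pool.Agent.H40.RI

open MeasureTheory Finset

/-- the exponents of the monomials of degree at most `2 d` in each of the `n` variables -/
abbrev Mono (n d : ℕ) := Fin n → Fin (2 * d + 1)

/-- integral polynomials of degree at most `2 d` in each of the `n` variables, given by their coefficients -/
abbrev Poly (n d : ℕ) := Mono n d → ℤ

/-- the value of a monomial -/
noncomputable def mono {n d : ℕ} (α : Mono n d) (x : Fin n → ℝ) : ℝ := ∏ i, x i ^ (α i : ℕ)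

/-- the value of a polynomial -/
noncomputable def ev {n d : ℕ} (c : Poly n d) (x : Fin n → ℝ) : ℝ := ∑ α, (c α : ℝ) * mono α x

/-- the zero set of a nonzero polynomial is a null set -/
theorem mv_null (n : ℕ) : ∀ f : MvPolynomial (Fin n) ℝ, f ≠ 0 →
    volume {x : Fin n → ℝ | MvPolynomial.eval x f = 0} = 0 := by
  induction n with
  | zero =>
    intro f hf
    have h : {x : Fin 0 → ℝ | MvPolynomial.eval x f = 0} = ∅ := by
      ext x
      simp only [Set.mem_ofPred_eq, Set.mem_empty_iff_false, iff_false]
      intro h0
      apply hf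
      rw [MvPolynomial.eq_C_of_isEmpty f] at h0 ⊢
      simp only [MvPolynomial.eval_C] at h0
      rw [h0, map_zero]
    rw [h]
    exact measure_empty
  | succ n ih =>
    intro f hf
    set q := MvPolynomial.finSuccEquiv ℝ n f with hq
    have hq0 : q ≠ 0 := by
      intro h
      apply hf
      have := (MvPolynomial.finSuccEquiv ℝ n).injective (a₁ := f) (a₂ := 0)
      apply this
      rw [map_zero]
      exact h
    have hlc : q.leadingCoeff ≠ 0 := Polynomial.leadingCoeff_ne_zero.2 hq0
    have h1 := ih _ hlc
    -- transfer to the product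
    have hmp := MeasureTheory.volume_preserving_piFinSuccAbove (fun _ : Fin (n + 1) => ℝ) 0
    set e := MeasurableEquiv.piFinSuccAbove (fun _ : Fin (n + 1) => ℝ) 0 with he
    have hcont : Measurable fun x : Fin (n + 1) → ℝ => MvPolynomial.eval x f := by
      have := MvPolynomial.continuous_eval f
      exact this.measurable
    have hmeas : MeasurableSet {x : Fin (n + 1) → ℝ | MvPolynomial.eval x f = 0} :=
      hcont (measurableSet_singleton 0)
    set T : Set (ℝ × (Fin n → ℝ)) := {z | MvPolynomial.eval (Fin.cons z.1 z.2) f = 0} with hT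
    have hpre : {x : Fin (n + 1) → ℝ | MvPolynomial.eval x f = 0} = e ⁻¹' T := by
      ext x
      simp only [Set.mem_ofPred_eq, Set.mem_preimage, hT]
      have : (Fin.cons (e x).1 (e x).2 : Fin (n + 1) → ℝ) = x := by
        rw [he]
        ext i
        refine Fin.cases ?_ (fun j => ?_) i
        · simp [MeasurableEquiv.piFinSuccAbove]
        · simp [MeasurableEquiv.piFinSuccAbove]
          rfl
      rw [this]
    have hTm : MeasurableSet T := by
      have h2 : T = e.symm ⁻¹' {x : Fin (n + 1) → ℝ | MvPolynomial.eval x f = 0} := by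
        rw [hpre, ← Set.preimage_comp]
        simp
      rw [h2]
      exact e.symm.measurable hmeas
    rw [hpre, hmp.measure_preimage hTm.nullMeasurableSet]
    change (volume.prod volume) T = 0
    have hsw : (volume.prod volume) (Prod.swap ⁻¹' T) = (volume.prod volume) T :=
      (Measure.measurePreserving_swap (μ := (volume : Measure (Fin n → ℝ))) (ν := (volume : Measure ℝ))).measure_preimage
        hTm.nullMeasurableSet
    rw [← hsw, Measure.measure_prod_null (measurable_swap hTm)]
    have h3 : ∀ᵐ y : Fin n → ℝ, MvPolynomial.eval y q.leadingCoeff ≠ 0 := by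
      rw [ae_iff]
      simpa using h1
    filter_upwards [h3] with y hy
    have h4 : (Prod.mk y ⁻¹' (Prod.swap ⁻¹' T) : Set ℝ) = {t : ℝ | (q.map (MvPolynomial.eval y)).eval t = 0} := by
      ext t
      simp only [Set.mem_preimage, Prod.swap_prod_mk, hT, Set.mem_ofPred_eq]
      rw [hq, MvPolynomial.eval_eq_eval_mv_eval']
    rw [h4]
    have h5 : q.map (MvPolynomial.eval y) ≠ 0 := by
      intro h0
      apply hy
      have h6 := congrArg (fun r => r.coeff q.natDegree) h0
      simp only [Polynomial.coeff_map, Polynomial.coeff_zero] at h6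
      exact h6
    have h7 : {t : ℝ | (q.map (MvPolynomial.eval y)).eval t = 0}.Finite := by
      have h8 := (q.map (MvPolynomial.eval y)).rootSet_finite ℝ
      refine h8.subset fun t ht => ?_
      rw [Polynomial.mem_rootSet]
      refine ⟨h5, ?_⟩
      simpa using ht
    exact h7.measure_zero _

/-- the polynomial with the given coefficients -/
noncomputable def toMv {n d : ℕ} (c : Poly n d) : MvPolynomial (Fin n) ℝ :=
  ∑ α : Mono n d, MvPolynomial.monomial (Finsupp.equivFunOnFinite.symm fun i => (α i : ℕ)) (c α : ℝ)

theorem eval_toMv {n d : ℕ} (c : Poly n d) (x : Fin n → ℝ) : MvPolynomial.eval x (toMv c) = ev c x := by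
  unfold toMv ev mono
  rw [map_sum]
  apply sum_congr rfl
  intro α _
  rw [MvPolynomial.eval_monomial, Finsupp.prod_fintype]
  · simp
  · intro i
    simp

theorem toMv_ne {n d : ℕ} (c : Poly n d) (hc : c ≠ 0) : toMv c ≠ 0 := by
  intro h
  apply hc
  ext α
  have h1 := congrArg (MvPolynomial.coeff (Finsupp.equivFunOnFinite.symm fun i => (α i : ℕ))) h
  unfold toMv at h1
  rw [MvPolynomial.coeff_sum, MvPolynomial.coeff_zero, sum_eq_single α] at h1
  · rw [MvPolynomial.coeff_monomial, if_pos rfl] at h1
    simpa using h1
  · intro β _ hβ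
    rw [MvPolynomial.coeff_monomial, if_neg]
    intro h2
    apply hβ
    have h3 := Finsupp.equivFunOnFinite.symm.injective h2
    ext i
    exact congrFun h3 i
  · intro h2
    exact absurd (mem_univ _) h2

theorem ev_null {n d : ℕ} (c : Poly n d) (hc : c ≠ 0) : ∀ᵐ x : Fin n → ℝ, ev c x ≠ 0 := by
  rw [ae_iff]
  have h := mv_null n (toMv c) (toMv_ne c hc)
  simpa only [eval_toMv, not_not, ne_eq] using h

theorem mono_cont {n d : ℕ} (α : Mono n d) : Continuous (mono α) := by
  unfold mono
  fun_prop

theorem ev_cont {n d : ℕ} (c : Poly n d) : Continuous (ev c) := by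
  unfold ev
  refine continuous_finsetSum _ fun α _ => ?_
  exact continuous_const.mul (mono_cont α)

end Pool.Agent.H40.RI
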