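import Pool.Agent.H40.RI.Fat

/-!
Random explicit integrals: counting.
-/

set_option autoImplicit false

namespace Pool.Agent.H40.RI

open MeasureTheory Finset

variable {n k d : ℕ}

/-- the polynomials with coefficients in `[-H, H]` -/
noncomputable def box (n d H : ℕ) : Finset (Poly n d) := Fintype.piFinset fun _ => Icc (-(H : ℤ)) H

/-- the `k`-tuples of polynomials with coefficients in `[-H, H]` -/
noncomputable def boxes (n k d H : ℕ) : Finset (Fin k → Poly n d) := Fintype.piFinset fun _ => box n d H

theorem mem_box {H : ℕ} {c : Poly n d} : c ∈ box n d H ↔ ∀ α, |c α| ≤ H := by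
  unfold box
  rw [Fintype.mem_piFinset]
  simp only [mem_Icc, abs_le]

theorem mem_boxes {H : ℕ} {p : Fin k → Poly n d} : p ∈ boxes n k d H ↔ ∀ j α, |p j α| ≤ H := by
  unfold boxes
  rw [Fintype.mem_piFinset]
  simp only [mem_box]

theorem card_int (H : ℕ) : (Icc (-(H : ℤ)) H).card = 2 * H + 1 := by
  rw [Int.card_Icc]
  omega

theorem card_mono (n d : ℕ) : Fintype.card (Mono n d) = (2 * d + 1) ^ n := by
  rw [Fintype.card_pi]
  simp

theorem card_box (n d H : ℕ) : (box n d H).card = (2 * H + 1) ^ ((2 * d + 1) ^ n) := by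
  unfold box
  rw [Fintype.card_piFinset, prod_const, card_int, card_univ, card_mono]

theorem card_boxes (n k d H : ℕ) : (boxes n k d H).card = (2 * H + 1) ^ (k * (2 * d + 1) ^ n) := by
  unfold boxes
  rw [Fintype.card_piFinset, prod_const, card_box, card_univ, Fintype.card_fin, ← pow_mul]
  congr 1
  ring

/-- the domain meets the region but the system is not fat there -/
def Thin (s : Fin k → Bool) (A : Finset (Fin n)) (p : Fin k → Poly n d) : Prop :=
  (dom s p ∩ Reg A).Nonempty ∧ ¬ Fat A p

/-- a change of the coefficients of the corner monomial -/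
def shift (A : Finset (Fin n)) (p : Fin k → Poly n d) (t : ℤ) : Fin k → Poly n d :=
  fun j α => p j α + if α = corner d A then t else 0

theorem ev_shift (A : Finset (Fin n)) (p : Fin k → Poly n d) (t : ℤ) (j : Fin k) (x : Fin n → ℝ) :
    ev (shift A p t j) x = ev (p j) x + t * mono (corner d A) x := by
  unfold ev shift
  simp only [Int.cast_add, add_mul, sum_add_distrib]
  congr 1
  rw [sum_eq_single (corner d A)]
  · simp
  · intro β _ hβ
    simp [hβ]
  · intro h
    exact absurd (mem_univ _) h

theorem fat_shift (s : Fin k → Bool) (A : Finset (Fin n)) (p : Fin k → Poly n d) (t : ℤ) (ht : 1 ≤ t)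
    (h : (dom s p ∩ Reg A).Nonempty) : Fat A (shift A p t) := by
  obtain ⟨x, hx, hxA⟩ := h
  refine ⟨x, hxA, fun j => ?_⟩
  rw [ev_shift]
  have h1 := hx j
  have h2 : 0 ≤ ev (p j) x := by
    split_ifs at h1
    · exact h1.le
    · exact h1
  have h3 := corner_ge (d := d) A x hxA
  have h4 : (1 : ℝ) ≤ t := by exact_mod_cast ht
  nlinarith

open Classical in
theorem card_thin (s : Fin k → Bool) (A : Finset (Fin n)) (H : ℕ) :
    ((boxes n k d H).filter (Thin s A)).card ≤ 2 ^ k * (2 * H + 1) ^ (k * (2 * d + 1) ^ n - 1) := by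
  cases k with
  | zero =>
    have h : (boxes n 0 d H).filter (Thin s A) = ∅ := by
      rw [filter_eq_empty_iff]
      rintro p - ⟨⟨x, hx, hxA⟩, hF⟩
      exact hF ⟨x, hxA, fun j => j.elim0⟩
    rw [h]
    simp
  | succ k =>
    set c0 := corner (n := n) d A with hc0
    set T : Finset (Fin (k + 1) → Poly n d) := Fintype.piFinset fun j => Fintype.piFinset fun α =>
      if α = c0 then (if j = 0 then {0} else Icc (-(2 * H : ℕ) : ℤ) (2 * H : ℕ)) else Icc (-(H : ℤ)) H with hT
    have h1 : ((boxes n (k + 1) d H).filter (Thin s A)).card ≤ T.card := by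
      apply card_le_card_of_injOn (fun p => shift A p (-(p 0 c0)))
      · intro p hp
        rw [mem_coe, mem_filter, mem_boxes] at hp
        rw [mem_coe, hT, Fintype.mem_piFinset]
        intro j
        rw [Fintype.mem_piFinset]
        intro α
        simp only [shift]
        rw [← hc0]
        split_ifs with ha hj
        · subst ha hj
          simp
        · subst ha
          have a1 := abs_le.1 (hp.1 j c0)
          have a2 := abs_le.1 (hp.1 0 c0)
          rw [mem_Icc]
          push_cast
          constructor <;> omega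
        · rw [mem_Icc, add_zero]
          exact abs_le.1 (hp.1 j α)
      · intro p hp q hq hpq
        rw [mem_coe, mem_filter] at hp hq
        have h2 : ∀ t : ℤ, ∀ j α, shift A p t j α = shift A q (t + p 0 c0 - q 0 c0) j α := by
          intro t j α
          have h3 := congrFun (congrFun hpq j) α
          simp only [shift] at h3 ⊢
          split_ifs at h3 ⊢ <;> omega
        have hz : ∀ r : Fin (k + 1) → Poly n d, shift A r 0 = r := by
          intro r
          funext j α
          simp [shift]
        rcases lt_trichotomy (p 0 c0) (q 0 c0) with h | h | h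
        · -- `q` is a shift of `p` by a positive number
          exfalso
          apply hq.2.2
          have h3 : q = shift A p (q 0 c0 - p 0 c0) := by
            funext j α
            rw [h2]
            have : q 0 c0 - p 0 c0 + p 0 c0 - q 0 c0 = 0 := by ring
            rw [this, hz]
          rw [h3]
          exact fat_shift s A p _ (by omega) hp.2.1
        · funext j α
          have h3 := h2 0 j α
          rw [hz, h] at h3
          have : (0 : ℤ) + q 0 c0 - q 0 c0 = 0 := by ring
          rw [this, hz] at h3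
          exact h3
        · exfalso
          apply hp.2.2
          have h3 : p = shift A q (p 0 c0 - q 0 c0) := by
            funext j α
            have h4 := h2 0 j α
            rw [hz] at h4
            rw [h4]
            congr 1
            ring
          rw [h3]
          exact fat_shift s A q _ (by omega) hq.2.1
    refine h1.trans ?_
    rw [hT, Fintype.card_piFinset]
    simp_rw [Fintype.card_piFinset]
    have h2 : ∀ j : Fin (k + 1), ∏ α : Mono n d, (if α = c0 then (if j = 0 then ({0} : Finset ℤ)
        else Icc (-(2 * H : ℕ) : ℤ) (2 * H : ℕ)) else Icc (-(H : ℤ)) H).card =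
        (if j = 0 then 1 else 4 * H + 1) * (2 * H + 1) ^ ((2 * d + 1) ^ n - 1) := by
      intro j
      rw [← mul_prod_erase univ _ (mem_univ c0), if_pos rfl]
      congr 1
      · split_ifs
        · simp
        · rw [card_int]
          ring
      · have h3 : ∀ α ∈ univ.erase c0, (if α = c0 then (if j = 0 then ({0} : Finset ℤ)
            else Icc (-(2 * H : ℕ) : ℤ) (2 * H : ℕ)) else Icc (-(H : ℤ)) H).card = 2 * H + 1 := by
          intro α hα
          rw [if_neg (ne_of_mem_erase hα), card_int]
        rw [prod_congr rfl h3, prod_const, card_erase_of_mem (mem_univ _), card_univ, card_mono]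
    rw [prod_congr rfl fun j _ => h2 j, prod_mul_distrib, prod_const, card_univ, Fintype.card_fin,
      Fin.prod_univ_succ]
    simp only [if_true, one_mul]
    have h4 : ∏ x : Fin k, (if x.succ = 0 then 1 else 4 * H + 1) = (4 * H + 1) ^ k := by
      have : ∀ x ∈ (univ : Finset (Fin k)), (if x.succ = 0 then 1 else 4 * H + 1) = 4 * H + 1 := by
        intro x _
        rw [if_neg (Fin.succ_ne_zero x)]
      rw [prod_congr rfl this, prod_const, card_univ, Fintype.card_fin]
    rw [h4, ← pow_mul]
    have hM : 1 ≤ (2 * d + 1) ^ n := Nat.one_le_pow _ _ (by omega)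
    obtain ⟨m, hm⟩ : ∃ m, (2 * d + 1) ^ n = m + 1 := ⟨(2 * d + 1) ^ n - 1, by omega⟩
    rw [hm, Nat.add_sub_cancel]
    have h5 : (4 * H + 1) ^ k ≤ (2 * (2 * H + 1)) ^ k := Nat.pow_le_pow_left (by omega) k
    have h6 : (k + 1) * (m + 1) - 1 = k + m * (k + 1) := by
      have : (k + 1) * (m + 1) = k + m * (k + 1) + 1 := by ring
      omega
    rw [h6, pow_add (2 * H + 1)]
    calc (4 * H + 1) ^ k * (2 * H + 1) ^ (m * (k + 1))
        ≤ (2 * (2 * H + 1)) ^ k * (2 * H + 1) ^ (m * (k + 1)) := Nat.mul_le_mul_right _ h5
      _ = 2 ^ k * ((2 * H + 1) ^ k * (2 * H + 1) ^ (m * (k + 1))) := by rw [mul_pow]; ring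
      _ ≤ 2 ^ (k + 1) * ((2 * H + 1) ^ k * (2 * H + 1) ^ (m * (k + 1))) :=
          Nat.mul_le_mul_right _ (Nat.pow_le_pow_right (by norm_num) (Nat.le_succ k))

/-! ### The integrals -/

theorem dom_meas (s : Fin k → Bool) (p : Fin k → Poly n d) : MeasurableSet (dom s p) := by
  have h : dom s p = ⋂ j, {x | if s j then 0 < ev (p j) x else 0 ≤ ev (p j) x} := by
    ext x
    simp [dom]
  rw [h]
  refine MeasurableSet.iInter fun j => ?_
  by_cases hs : s j = true
  · simp only [hs, if_true]
    exact measurableSet_lt measurable_const (ev_cont _).measurable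
  · simp only [hs]
    exact measurableSet_le measurable_const (ev_cont _).measurable

/-- the bound for the distance -/
noncomputable def gap (n d H : ℕ) : ℝ := rad n d H ^ n / (2 * (2 * d + 1) ^ n * H)

theorem gap_pos (n d H : ℕ) (hH : 1 ≤ H) : 0 < gap n d H := by
  unfold gap
  have h1 := rad_pos n d H hH
  have h2 : (1 : ℝ) ≤ H := by exact_mod_cast hH
  positivity

/-- the choice of the coefficient -/
theorem exists_coeff (σ : Set (Fin n → ℝ)) (H : ℕ) (hH : 1 ≤ H)
    (hvol : ENNReal.ofReal (rad n d H ^ n) ≤ volume σ) (Q : Poly n d) (hQ0 : Q ≠ 0)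
    (hQ : ∀ α, |Q α| ≤ H) :
    ∃ α₀ : Mono n d, ∀ P P' : Poly n d, (∀ α, α ≠ α₀ → P α = P' α) →
      IntegrableOn (fun x => ev P x / ev Q x) σ → IntegrableOn (fun x => ev P' x / ev Q x) σ →
      |(P α₀ - P' α₀ : ℤ)| * (2 * gap n d H) ≤
        |(∫ x in σ, ev P x / ev Q x) - ∫ x in σ, ev P' x / ev Q x| := by
  classical
  have hHr : (1 : ℝ) ≤ H := by exact_mod_cast hH
  have hr := rad_pos n d H hH
  have hsum : ∀ (P : Poly n d) (x : Fin n → ℝ), ev P x / ev Q x = ∑ α, (P α : ℝ) * (mono α x / ev Q x) := by
    intro P x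
    unfold ev
    rw [sum_div]
    apply sum_congr rfl
    intro α _
    ring
  by_cases hall : ∀ α : Mono n d, IntegrableOn (fun x => mono α x / ev Q x) σ
  · set μ : Mono n d → ℝ := fun α => ∫ x in σ, mono α x / ev Q x with hμ
    have hI : ∀ P : Poly n d, ∫ x in σ, ev P x / ev Q x = ∑ α, (P α : ℝ) * μ α := by
      intro P
      simp_rw [hsum P]
      rw [integral_finsetSum _ fun α _ => (hall α).const_mul _]
      apply sum_congr rfl
      intro α _
      rw [integral_const_mul]
    have hint : IntegrableOn (fun x => ev Q x / ev Q x) σ := by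
      have h1 : IntegrableOn (fun x => ∑ α, (Q α : ℝ) * (mono α x / ev Q x)) σ :=
        integrable_finsetSum _ fun α _ => (hall α).const_mul _
      simpa only [hsum Q] using h1
    have hae : ∀ᵐ x ∂(volume.restrict σ), ev Q x / ev Q x = 1 := by
      apply ae_restrict_of_ae
      filter_upwards [ev_null Q hQ0] with x hx
      exact div_self hx
    have hfin : volume σ ≠ ⊤ := by
      have h1 : IntegrableOn (fun _ : Fin n → ℝ => (1 : ℝ)) σ := hint.congr hae
      rw [integrableOn_const_iff] at h1
      rcases h1 with h1 | h1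
      · exact absurd h1 (by norm_num)
      · exact h1.ne
    have hvolI : (volume σ).toReal = ∑ α, (Q α : ℝ) * μ α := by
      rw [← hI Q, integral_congr_ae hae]
      simp [Measure.real]
    have hv : rad n d H ^ n ≤ (volume σ).toReal := by
      rw [← ENNReal.ofReal_le_iff_le_toReal hfin]
      exact hvol
    obtain ⟨α₀, hα₀⟩ := Finite.exists_max fun α => |μ α|
    have hμ0 : 2 * gap n d H ≤ |μ α₀| := by
      have h1 : rad n d H ^ n ≤ (2 * (d : ℝ) + 1) ^ n * (H * |μ α₀|) := by
        calc rad n d H ^ n ≤ |∑ α, (Q α : ℝ) * μ α| := by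
              rw [← hvolI]
              exact hv.trans (le_abs_self _)
          _ ≤ ∑ α : Mono n d, (H * |μ α₀| : ℝ) := by
              refine (abs_sum_le_sum_abs _ _).trans (sum_le_sum fun α _ => ?_)
              rw [abs_mul]
              have h2 : |(Q α : ℝ)| ≤ H := by exact_mod_cast hQ α
              exact mul_le_mul h2 (hα₀ α) (abs_nonneg _) (by positivity)
          _ = (2 * (d : ℝ) + 1) ^ n * (H * |μ α₀|) := by
              rw [sum_const, card_univ, nsmul_eq_mul, card_mono]
              push_cast
              ring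
      unfold gap
      have h2 : (0 : ℝ) < (2 * d + 1) ^ n := by positivity
      rw [mul_div_assoc', div_le_iff₀ (by positivity)]
      nlinarith
    refine ⟨α₀, fun P P' hP _ _ => ?_⟩
    rw [hI P, hI P', ← sum_sub_distrib, sum_eq_single α₀]
    · rw [← sub_mul, abs_mul]
      have e : |((P α₀ - P' α₀ : ℤ) : ℝ)| = ((|P α₀ - P' α₀| : ℤ) : ℝ) := by
        rw [Int.cast_abs]
      rw [← Int.cast_sub, e]
      exact mul_le_mul_of_nonneg_left hμ0 (by exact_mod_cast abs_nonneg _)
    · intro β _ hβ
      rw [hP β hβ]
      ring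
    · intro h
      exact absurd (mem_univ _) h
  · push Not at hall
    obtain ⟨α₀, hα₀⟩ := hall
    refine ⟨α₀, fun P P' hP h1 h2 => ?_⟩
    have h3 : P α₀ = P' α₀ := by
      by_contra hne
      apply hα₀
      have h4 : IntegrableOn (fun x => ev P x / ev Q x - ev P' x / ev Q x) σ := h1.sub h2
      have h5 : ∀ x, ev P x / ev Q x - ev P' x / ev Q x = ((P α₀ : ℝ) - P' α₀) * (mono α₀ x / ev Q x) := by
        intro x
        rw [hsum P, hsum P', ← sum_sub_distrib, sum_eq_single α₀]
        · ring
        · intro β _ hβ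
          rw [hP β hβ]
          ring
        · intro h
          exact absurd (mem_univ _) h
      simp_rw [h5] at h4
      have h6 : ((P α₀ : ℝ) - P' α₀) ≠ 0 := by
        intro h0
        apply hne
        exact_mod_cast sub_eq_zero.1 h0
      have h7 := h4.const_mul ((P α₀ : ℝ) - P' α₀)⁻¹
      refine h7.congr ?_
      filter_upwards with x
      field_simp
    rw [h3, sub_self, abs_zero]
    simp

/-- the numerators for which the integral converges and is near a given number -/
def Near (σ : Set (Fin n → ℝ)) (Q : Poly n d) (v η : ℝ) (P : Poly n d) : Prop :=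
  IntegrableOn (fun x => ev P x / ev Q x) σ ∧ |(∫ x in σ, ev P x / ev Q x) - v| < η

open Classical in
/-- few numerators give a value near a given number -/
theorem card_near (σ : Set (Fin n → ℝ)) (H : ℕ) (hH : 1 ≤ H)
    (hvol : ENNReal.ofReal (rad n d H ^ n) ≤ volume σ) (Q : Poly n d) (hQ0 : Q ≠ 0)
    (hQ : ∀ α, |Q α| ≤ H) (v : ℝ) :
    ((box n d H).filter (Near σ Q v (gap n d H))).card ≤ (2 * H + 1) ^ ((2 * d + 1) ^ n - 1) := by
  obtain ⟨α₀, hα₀⟩ := exists_coeff σ H hH hvol Q hQ0 hQ
  set T : Finset (Poly n d) := Fintype.piFinset fun α => if α = α₀ then {0} else Icc (-(H : ℤ)) H with hT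
  have h1 : ((box n d H).filter (Near σ Q v (gap n d H))).card ≤ T.card := by
    apply card_le_card_of_injOn (fun P => Function.update P α₀ 0)
    · intro P hP
      rw [mem_coe, mem_filter, mem_box] at hP
      rw [mem_coe, hT, Fintype.mem_piFinset]
      intro α
      by_cases h : α = α₀
      · subst h
        simp
      · simp only [if_neg h, Function.update_of_ne h, mem_Icc]
        exact abs_le.1 (hP.1 α)
    · intro P hP P' hP' hPP
      rw [mem_coe, mem_filter] at hP hP'
      have h2 : ∀ α, α ≠ α₀ → P α = P' α := by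
        intro α hα
        have := congrFun hPP α
        simpa [Function.update_of_ne hα] using this
      have h3 := hα₀ P P' h2 hP.2.1 hP'.2.1
      have h4 : |(∫ x in σ, ev P x / ev Q x) - ∫ x in σ, ev P' x / ev Q x| < 2 * gap n d H := by
        have h5 := hP.2.2
        have h6 := hP'.2.2
        rw [abs_lt] at h5 h6 ⊢
        constructor <;> linarith [h5.1, h5.2, h6.1, h6.2]
      have hg := gap_pos n d H hH
      have h5 : P α₀ = P' α₀ := by
        by_contra hne
        have h6 : 1 ≤ |P α₀ - P' α₀| := Int.one_le_abs (sub_ne_zero.2 hne)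
        have h7 : (1 : ℝ) ≤ ((|P α₀ - P' α₀| : ℤ) : ℝ) := by exact_mod_cast h6
        nlinarith
      ext α
      by_cases h : α = α₀
      · rw [h]
        exact h5
      · exact h2 α h
  refine h1.trans (le_of_eq ?_)
  rw [hT, Fintype.card_piFinset, ← mul_prod_erase univ _ (mem_univ α₀), if_pos rfl, card_singleton, one_mul]
  have h3 : ∀ α ∈ univ.erase α₀, (if α = α₀ then ({0} : Finset ℤ) else Icc (-(H : ℤ)) H).card = 2 * H + 1 := by
    intro α hα
    rw [if_neg (ne_of_mem_erase hα), card_int]
  rw [prod_congr rfl h3, prod_const, card_erase_of_mem (mem_univ _), card_univ, card_mono]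

end Pool.Agent.H40.RI
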