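import Pool.Agent.H40.RI.Basic

/-!
Random explicit integrals: fat systems of inequalities and a lower bound for the volume.
-/

set_option autoImplicit false

namespace Pool.Agent.H40.RI

open MeasureTheory Finset

variable {n k d : ℕ}

/-- the domain of the system of inequalities `p j > 0` (`s j` true) or `p j ≥ 0` (`s j` false) -/
def dom (s : Fin k → Bool) (p : Fin k → Poly n d) : Set (Fin n → ℝ) :=
  {x | ∀ j, if s j then 0 < ev (p j) x else 0 ≤ ev (p j) x}

/-- the region of the `x` with `|x i| ≥ 1` for `i ∈ A` and `|x i| ≤ 1` for `i ∉ A` -/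
def Reg (A : Finset (Fin n)) : Set (Fin n → ℝ) := {x | ∀ i, (i ∈ A → 1 ≤ |x i|) ∧ (i ∉ A → |x i| ≤ 1)}

/-- the exponent `2 d` at the `i ∈ A` -/
def corner (d : ℕ) (A : Finset (Fin n)) : Mono n d := fun i => if i ∈ A then Fin.last (2 * d) else 0

/-- the largest monomial in the region -/
theorem mono_corner (A : Finset (Fin n)) (x : Fin n → ℝ) :
    mono (corner d A) x = ∏ i, if i ∈ A then x i ^ (2 * d) else 1 := by
  unfold mono corner
  apply prod_congr rfl
  intro i _
  split_ifs with h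
  · simp
  · simp

theorem even_pow_ge {a : ℝ} (h : 1 ≤ |a|) : 1 ≤ a ^ (2 * d) := by
  rw [pow_mul, ← sq_abs, ← pow_mul]
  exact one_le_pow₀ h

theorem corner_ge (A : Finset (Fin n)) (x : Fin n → ℝ) (hx : x ∈ Reg A) : 1 ≤ mono (corner d A) x := by
  rw [mono_corner]
  have h : ∏ _i : Fin n, (1 : ℝ) ≤ ∏ i : Fin n, (if i ∈ A then x i ^ (2 * d) else 1) := by
    apply prod_le_prod
    · intro i _
      exact zero_le_one
    · intro i _
      split_ifs with h
      · exact even_pow_ge ((hx i).1 h)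
      · exact le_rfl
  rwa [prod_const_one] at h

/-- the system is fat in the region -/
def Fat (A : Finset (Fin n)) (p : Fin k → Poly n d) : Prop :=
  ∃ x ∈ Reg A, ∀ j, mono (corner d A) x ≤ ev (p j) x

/-- products near each other -/
theorem prod_near {ι : Type} (s : Finset ι) (a b : ι → ℝ) (η : ℝ) (hη : 0 ≤ η)
    (hb : ∀ i ∈ s, |b i| ≤ 1) (hab : ∀ i ∈ s, |a i - b i| ≤ η) :
    |∏ i ∈ s, a i - ∏ i ∈ s, b i| ≤ (1 + η) ^ s.card - 1 := by
  classical
  induction s using Finset.induction_on with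
  | empty => simp
  | insert j s hj ih =>
    have h1 := ih (fun i hi => hb i (mem_insert_of_mem hi)) (fun i hi => hab i (mem_insert_of_mem hi))
    have h2 := hb j (mem_insert_self _ _)
    have h3 := hab j (mem_insert_self _ _)
    rw [prod_insert hj, prod_insert hj, card_insert_of_notMem hj, pow_succ]
    have h4 : |∏ i ∈ s, b i| ≤ 1 := by
      rw [abs_prod]
      exact prod_le_one (fun i _ => abs_nonneg _) (fun i hi => hb i (mem_insert_of_mem hi))
    have h5 : |a j| ≤ 1 + η := by
      have := abs_sub_abs_le_abs_sub (a j) (b j)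
      linarith
    have e : a j * ∏ i ∈ s, a i - b j * ∏ i ∈ s, b i =
        a j * (∏ i ∈ s, a i - ∏ i ∈ s, b i) + (a j - b j) * ∏ i ∈ s, b i := by ring
    rw [e]
    refine (abs_add_le _ _).trans ?_
    rw [abs_mul, abs_mul]
    have h6 : |a j| * |∏ i ∈ s, a i - ∏ i ∈ s, b i| ≤ (1 + η) * ((1 + η) ^ s.card - 1) :=
      mul_le_mul h5 h1 (abs_nonneg _) (by linarith)
    have h7 : |a j - b j| * |∏ i ∈ s, b i| ≤ η * 1 := mul_le_mul h3 h4 (abs_nonneg _) hη
    linarith

theorem pow_sub_one_mono {r : ℝ} (hr : 0 ≤ r) {a b : ℕ} (h : a ≤ b) : (1 + r) ^ a - 1 ≤ (1 + r) ^ b - 1 := by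
  have : (1 + r) ^ a ≤ (1 + r) ^ b := pow_le_pow_right₀ (by linarith) h
  linarith

/-- powers of nearby numbers of absolute value at most one -/
theorem pow_near {x y r : ℝ} (hr : 0 ≤ r) (_hx : |x| ≤ 1) (hy : |y| ≤ 1) (hxy : |x - y| ≤ r) (m : ℕ) :
    |x ^ m - y ^ m| ≤ (1 + r) ^ m - 1 := by
  have h := prod_near (Finset.range m) (fun _ => x) (fun _ => y) r hr (fun _ _ => hy) (fun _ _ => hxy)
  simpa using h

/-- the relative side of the box around a point -/
noncomputable def rad (n d H : ℕ) : ℝ := 1 / (4 * (2 * d * n + 1) * (2 * d + 1) ^ n * H)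

theorem rad_pos (n d H : ℕ) (hH : 1 ≤ H) : 0 < rad n d H := by
  unfold rad
  have : (1 : ℝ) ≤ H := by exact_mod_cast hH
  positivity

theorem rad_le (n d H : ℕ) (hH : 1 ≤ H) : rad n d H ≤ 1 / (4 * (2 * d * n + 1)) := by
  unfold rad
  have h1 : (1 : ℝ) ≤ H := by exact_mod_cast hH
  have h2 : (1 : ℝ) ≤ (2 * (d : ℝ) + 1) ^ n := one_le_pow₀ (by
    have : (0 : ℝ) ≤ d := Nat.cast_nonneg d
    linarith)
  have h3 : (0 : ℝ) < 4 * (2 * d * n + 1) := by positivity
  apply div_le_div_of_nonneg_left (by norm_num) h3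
  have h4 : (1 : ℝ) ≤ (2 * (d : ℝ) + 1) ^ n * H := by nlinarith
  nlinarith

theorem rad_pow (n d H : ℕ) (hH : 1 ≤ H) :
    (2 * (d : ℝ) + 1) ^ n * H * ((1 + rad n d H) ^ (2 * d * n) - 1) ≤ 1 / 2 := by
  have hr := rad_pos n d H hH
  have hr1 := rad_le n d H hH
  have h1 : (1 : ℝ) ≤ H := by exact_mod_cast hH
  set r := rad n d H with hrdef
  set M : ℝ := 2 * d * n + 1 with hM
  have hM1 : 1 ≤ M := by
    rw [hM]
    have : (0 : ℝ) ≤ 2 * d * n := by positivity
    linarith
  have hrM : r * M ≤ 1 / 4 := by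
    have : r * M ≤ 1 / (4 * M) * M := mul_le_mul_of_nonneg_right hr1 (by linarith)
    refine this.trans (le_of_eq ?_)
    field_simp
  have h2 : (1 + r) ^ (2 * d * n) - 1 ≤ 2 * (r * M) := by
    have h3 : (1 + r) ^ (2 * d * n) ≤ Real.exp (r * M) := by
      have h4 : (1 + r) ≤ Real.exp r := by
        have := Real.add_one_le_exp r
        linarith
      calc (1 + r) ^ (2 * d * n) ≤ (Real.exp r) ^ (2 * d * n) := pow_le_pow_left₀ (by linarith) h4 _
        _ = Real.exp (r * (2 * d * n : ℕ)) := by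
            rw [← Real.exp_nat_mul]
            congr 1
            ring
        _ ≤ Real.exp (r * M) := by
            apply Real.exp_le_exp.2
            apply mul_le_mul_of_nonneg_left _ hr.le
            rw [hM]
            push_cast
            linarith
    have h5 : Real.exp (r * M) ≤ 1 + 2 * (r * M) := by
      have h6 : |r * M| ≤ 1 := by
        rw [abs_of_nonneg (by positivity)]
        linarith
      have h7 := Real.abs_exp_sub_one_sub_id_le h6
      have h8 := (abs_le.1 h7).2
      have h9 : (r * M) ^ 2 ≤ r * M := by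
        have : 0 ≤ r * M := by positivity
        nlinarith
      linarith
    linarith
  have h3 : (2 * (d : ℝ) + 1) ^ n * H * (r * M) = 1 / 4 := by
    rw [hrdef, hM]
    unfold rad
    have : (0 : ℝ) < 2 * d + 1 := by positivity
    have h4 : (0 : ℝ) < 2 * d * n + 1 := by positivity
    field_simp
  calc (2 * (d : ℝ) + 1) ^ n * H * ((1 + r) ^ (2 * d * n) - 1) ≤
        (2 * (d : ℝ) + 1) ^ n * H * (2 * (r * M)) := mul_le_mul_of_nonneg_left h2 (by positivity)
    _ = 2 * ((2 * (d : ℝ) + 1) ^ n * H * (r * M)) := by ring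
    _ = 1 / 2 := by rw [h3]; norm_num

/-- the box around a point: `x i = x₀ i u`, `1 ≤ u ≤ 1 + r` for `i ∈ A`, and `|x i - x₀ i| ≤ r`, `|x i| ≤ 1` for
`i ∉ A` -/
def InBox (A : Finset (Fin n)) (r : ℝ) (x₀ x : Fin n → ℝ) : Prop :=
  ∀ i, (i ∈ A → ∃ u : ℝ, 1 ≤ u ∧ u ≤ 1 + r ∧ x i = x₀ i * u) ∧ (i ∉ A → |x i| ≤ 1 ∧ |x i - x₀ i| ≤ r)

theorem mono_near (A : Finset (Fin n)) (r : ℝ) (hr : 0 ≤ r) (x₀ x : Fin n → ℝ) (hx₀ : x₀ ∈ Reg A)
    (hx : InBox A r x₀ x) (α : Mono n d) :
    |mono α x - mono α x₀| ≤ ((1 + r) ^ (2 * d * n) - 1) * mono (corner d A) x₀ := by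
  -- divide by the corner monomial
  set W : Fin n → ℝ := fun i => if i ∈ A then x₀ i ^ (2 * d) else 1 with hW
  have hW1 : ∀ i, 1 ≤ W i := by
    intro i
    simp only [hW]
    split_ifs with h
    · exact even_pow_ge ((hx₀ i).1 h)
    · exact le_rfl
  have hc : mono (corner d A) x₀ = ∏ i, W i := mono_corner A x₀
  have hc0 : 0 < ∏ i, W i := prod_pos fun i _ => by linarith [hW1 i]
  set a : Fin n → ℝ := fun i => x i ^ (α i : ℕ) / W i with ha
  set b : Fin n → ℝ := fun i => x₀ i ^ (α i : ℕ) / W i with hb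
  have hα : ∀ i, (α i : ℕ) ≤ 2 * d := fun i => Nat.lt_succ_iff.1 (α i).2
  have hb1 : ∀ i, |b i| ≤ 1 := by
    intro i
    simp only [hb]
    rw [abs_div, abs_of_pos (by linarith [hW1 i] : 0 < W i), div_le_one (by linarith [hW1 i])]
    simp only [hW]
    split_ifs with h
    · rw [abs_pow]
      have h1 := (hx₀ i).1 h
      calc |x₀ i| ^ (α i : ℕ) ≤ |x₀ i| ^ (2 * d) := pow_le_pow_right₀ h1 (hα i)
        _ = x₀ i ^ (2 * d) := by rw [pow_mul, sq_abs, ← pow_mul]
    · rw [abs_pow]
      exact pow_le_one₀ (abs_nonneg _) ((hx₀ i).2 h)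
  have hab : ∀ i, |a i - b i| ≤ (1 + r) ^ (2 * d) - 1 := by
    intro i
    by_cases h : i ∈ A
    · obtain ⟨u, hu1, hu2, hu⟩ := (hx i).1 h
      have e : a i - b i = b i * (u ^ (α i : ℕ) - 1) := by
        simp only [ha, hb]
        rw [hu, mul_pow]
        ring
      rw [e, abs_mul]
      have h1 : 1 ≤ u ^ (α i : ℕ) := one_le_pow₀ hu1
      rw [abs_of_nonneg (by linarith : 0 ≤ u ^ (α i : ℕ) - 1)]
      have h2 : u ^ (α i : ℕ) ≤ (1 + r) ^ (α i : ℕ) := pow_le_pow_left₀ (by linarith) hu2 _
      have h3 := pow_sub_one_mono hr (hα i)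
      calc |b i| * (u ^ (α i : ℕ) - 1) ≤ 1 * (u ^ (α i : ℕ) - 1) :=
            mul_le_mul_of_nonneg_right (hb1 i) (by linarith)
        _ ≤ _ := by linarith
    · obtain ⟨h1, h2⟩ := (hx i).2 h
      have e : a i - b i = x i ^ (α i : ℕ) - x₀ i ^ (α i : ℕ) := by
        simp only [ha, hb, hW, if_neg h, div_one]
      rw [e]
      exact (pow_near hr h1 ((hx₀ i).2 h) h2 _).trans (pow_sub_one_mono hr (hα i))
  have hη : 0 ≤ (1 + r) ^ (2 * d) - 1 := by
    have : 1 ≤ (1 + r) ^ (2 * d) := one_le_pow₀ (by linarith)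
    linarith
  have h1 := prod_near (univ : Finset (Fin n)) a b _ hη (fun i _ => hb1 i) (fun i _ => hab i)
  have e1 : ∏ i, a i = mono α x / ∏ i, W i := by
    simp only [ha]
    rw [prod_div_distrib]
    rfl
  have e2 : ∏ i, b i = mono α x₀ / ∏ i, W i := by
    simp only [hb]
    rw [prod_div_distrib]
    rfl
  rw [e1, e2, ← sub_div, abs_div, abs_of_pos hc0, div_le_iff₀ hc0, card_univ, Fintype.card_fin,
    add_sub_cancel, ← pow_mul] at h1
  rw [hc]
  exact h1

theorem ev_near (A : Finset (Fin n)) (H : ℕ) (hH : 1 ≤ H) (x₀ x : Fin n → ℝ) (hx₀ : x₀ ∈ Reg A)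
    (hx : InBox A (rad n d H) x₀ x) (c : Poly n d) (hc : ∀ α, |c α| ≤ H) :
    |ev c x - ev c x₀| ≤ mono (corner d A) x₀ / 2 := by
  have hr := rad_pos n d H hH
  have hw := corner_ge (d := d) A x₀ hx₀
  set E := (1 + rad n d H) ^ (2 * d * n) - 1 with hE
  have hE0 : 0 ≤ E := by
    have : 1 ≤ (1 + rad n d H) ^ (2 * d * n) := one_le_pow₀ (by linarith)
    linarith
  unfold ev
  rw [← sum_sub_distrib]
  have h1 : ∀ α : Mono n d, |(c α : ℝ) * mono α x - (c α : ℝ) * mono α x₀| ≤
      H * (E * mono (corner d A) x₀) := by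
    intro α
    rw [← mul_sub, abs_mul]
    have h2 : |(c α : ℝ)| ≤ H := by exact_mod_cast hc α
    exact mul_le_mul h2 (mono_near A _ hr.le x₀ x hx₀ hx α) (abs_nonneg _) (by positivity)
  refine (abs_sum_le_sum_abs _ _).trans ((sum_le_sum fun α _ => h1 α).trans ?_)
  rw [sum_const, card_univ, nsmul_eq_mul]
  have hcard : (Fintype.card (Mono n d) : ℝ) = (2 * (d : ℝ) + 1) ^ n := by
    rw [Fintype.card_pi]
    simp
  rw [hcard]
  have h3 := rad_pow n d H hH
  rw [← hE] at h3
  calc (2 * (d : ℝ) + 1) ^ n * (H * (E * mono (corner d A) x₀)) =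
        ((2 * (d : ℝ) + 1) ^ n * H * E) * mono (corner d A) x₀ := by ring
    _ ≤ 1 / 2 * mono (corner d A) x₀ := mul_le_mul_of_nonneg_right h3 (by linarith)
    _ = _ := by ring

/-- a fat system has a large domain -/
theorem vol_ge (s : Fin k → Bool) (p : Fin k → Poly n d) (A : Finset (Fin n)) (H : ℕ) (hH : 1 ≤ H)
    (hp : ∀ j α, |p j α| ≤ H) (hF : Fat A p) :
    ENNReal.ofReal (rad n d H ^ n) ≤ volume (dom s p) := by
  obtain ⟨x₀, hx₀, hj⟩ := hF
  have hr := rad_pos n d H hH
  have hr1 : rad n d H ≤ 1 := by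
    refine (rad_le n d H hH).trans ?_
    rw [div_le_one (by positivity)]
    have : (0 : ℝ) ≤ 2 * d * n := by positivity
    linarith
  set r := rad n d H with hrdef
  -- the increments
  set t : Fin n → ℝ := fun i => if i ∈ A then r * x₀ i else if x₀ i ≤ 0 then r else -r with ht
  have htr : ∀ i, r ≤ |t i| := by
    intro i
    simp only [ht]
    split_ifs with h1 h2
    · rw [abs_mul, abs_of_pos hr]
      have := (hx₀ i).1 h1
      nlinarith
    · exact le_abs_self _
    · rw [abs_neg]
      exact le_abs_self _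
  set B : Set (Fin n → ℝ) := Set.Icc (fun i => min (x₀ i) (x₀ i + t i)) (fun i => max (x₀ i) (x₀ i + t i)) with hB
  have hBv : ENNReal.ofReal (r ^ n) ≤ volume B := by
    rw [hB, Real.volume_Icc_pi]
    have e : ENNReal.ofReal (r ^ n) = ∏ _i : Fin n, ENNReal.ofReal r := by
      rw [prod_const, card_univ, Fintype.card_fin, ENNReal.ofReal_pow hr.le]
    rw [e]
    apply prod_le_prod'
    intro i _
    apply ENNReal.ofReal_le_ofReal
    rw [max_sub_min_eq_abs]
    have e2 : x₀ i + t i - x₀ i = t i := by ring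
    rw [e2]
    exact htr i
  refine hBv.trans (measure_mono ?_)
  intro x hx
  rw [hB, Set.mem_Icc] at hx
  have hbox : InBox A r x₀ x := by
    intro i
    have h1 := hx.1 i
    have h2 := hx.2 i
    simp only at h1 h2
    constructor
    · intro hi
      have ht' : t i = r * x₀ i := by simp only [ht, if_pos hi]
      have hx1 := (hx₀ i).1 hi
      have hx0 : x₀ i ≠ 0 := by
        intro h0
        rw [h0, abs_zero] at hx1
        linarith
      refine ⟨x i / x₀ i, ?_, ?_, by field_simp⟩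
      · rcases lt_or_gt_of_ne hx0 with h | h
        · rw [le_div_iff_of_neg h]
          have : t i ≤ 0 := by rw [ht']; nlinarith
          rw [max_eq_left (by linarith)] at h2
          linarith
        · rw [le_div_iff₀ h]
          have : 0 ≤ t i := by rw [ht']; positivity
          rw [min_eq_left (by linarith)] at h1
          linarith
      · rcases lt_or_gt_of_ne hx0 with h | h
        · rw [div_le_iff_of_neg h]
          have : t i ≤ 0 := by rw [ht']; nlinarith
          rw [min_eq_right (by linarith), ht'] at h1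
          linarith
        · rw [div_le_iff₀ h]
          have : 0 ≤ t i := by rw [ht']; positivity
          rw [max_eq_right (by linarith), ht'] at h2
          linarith
    · intro hi
      have hx1 := abs_le.1 ((hx₀ i).2 hi)
      by_cases h0 : x₀ i ≤ 0
      · have ht' : t i = r := by simp only [ht, if_neg hi, if_pos h0]
        rw [ht', min_eq_left (by linarith)] at h1
        rw [ht', max_eq_right (by linarith)] at h2
        constructor
        · rw [abs_le]
          constructor <;> linarith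
        · rw [abs_le]
          constructor <;> linarith
      · have ht' : t i = -r := by simp only [ht, if_neg hi, if_neg h0]
        push Not at h0
        rw [ht', min_eq_right (by linarith)] at h1
        rw [ht', max_eq_left (by linarith)] at h2
        constructor
        · rw [abs_le]
          constructor <;> linarith
        · rw [abs_le]
          constructor <;> linarith
  intro j
  have h1 := ev_near A H hH x₀ x hx₀ hbox (p j) (hp j)
  have h2 := hj j
  have h3 := corner_ge (d := d) A x₀ hx₀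
  have h4 := (abs_le.1 h1).1
  have h5 : 0 < ev (p j) x := by linarith
  split_ifs
  · exact h5
  · exact h5.le

end Pool.Agent.H40.RI
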