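import Pool.Agent.H40.RI.Count

/-!
Random explicit integrals: a positive proportion of the integrals converge.
-/

set_option autoImplicit false

namespace Pool.Agent.H40.RI

open MeasureTheory Finset

variable {n k d : ℕ}

/-- `∏ (1 + x_i ^ (2 d))` -/
noncomputable def Wt (d : ℕ) (x : Fin n → ℝ) : ℝ := ∏ i, (1 + x i ^ (2 * d))

theorem even_nonneg (a : ℝ) (d : ℕ) : 0 ≤ a ^ (2 * d) := by
  rw [pow_mul]
  positivity

theorem Wt_ge (x : Fin n → ℝ) : 1 ≤ Wt d x := by
  unfold Wt
  have h : ∏ _i : Fin n, (1 : ℝ) ≤ ∏ i : Fin n, (1 + x i ^ (2 * d)) := by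
    apply prod_le_prod
    · intro i _
      exact zero_le_one
    · intro i _
      have := even_nonneg (x i) d
      linarith
  rwa [prod_const_one] at h

theorem mono_le_Wt (α : Mono n d) (x : Fin n → ℝ) : |mono α x| ≤ Wt d x := by
  unfold mono Wt
  rw [abs_prod]
  apply prod_le_prod
  · intro i _; exact abs_nonneg _
  · intro i _
    have h0 := even_nonneg (x i) d
    have hα : (α i : ℕ) ≤ 2 * d := Nat.lt_succ_iff.1 (α i).2
    rw [abs_pow]
    rcases le_total |x i| 1 with h | h
    · have := pow_le_one₀ (abs_nonneg (x i)) h (n := (α i : ℕ))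
      linarith
    · have h1 : |x i| ^ (α i : ℕ) ≤ |x i| ^ (2 * d) := pow_le_pow_right₀ h hα
      have h2 : |x i| ^ (2 * d) = x i ^ (2 * d) := by rw [pow_mul, sq_abs, ← pow_mul]
      linarith

/-- the corners -/
def cor (n d : ℕ) : Finset (Mono n d) := Fintype.piFinset fun _ => {0, Fin.last (2 * d)}

theorem sum_cor (hd : 1 ≤ d) (x : Fin n → ℝ) : ∑ α ∈ cor n d, mono α x = Wt d x := by
  unfold cor Wt mono
  rw [← prod_univ_sum (fun _ : Fin n => ({0, Fin.last (2 * d)} : Finset (Fin (2 * d + 1))))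
    (fun i j => x i ^ (j : ℕ))]
  apply prod_congr rfl
  intro i _
  rw [sum_pair]
  · simp
  · intro h
    have := congrArg Fin.val h
    simp at this
    omega

theorem cor_nonneg (α : Mono n d) (hα : α ∈ cor n d) (x : Fin n → ℝ) : 0 ≤ mono α x := by
  unfold cor at hα
  rw [Fintype.mem_piFinset] at hα
  unfold mono
  apply prod_nonneg
  intro i _
  have := hα i
  rw [mem_insert, mem_singleton] at this
  rcases this with h | h
  · rw [h]; simp
  · rw [h]
    exact even_nonneg _ _

theorem zero_mem_cor : (0 : Mono n d) ∈ cor n d := by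
  unfold cor
  rw [Fintype.mem_piFinset]
  intro i
  simp

theorem mono_zero (x : Fin n → ℝ) : mono (0 : Mono n d) x = 1 := by
  unfold mono
  simp

/-- the small coefficients -/
def sm (n d H : ℕ) : ℕ := H / (24 * (2 * d + 1) ^ n)

theorem sm_le (n d H : ℕ) : (sm n d H : ℝ) * (2 * (d : ℝ) + 1) ^ n ≤ H / 24 := by
  unfold sm
  have h1 : H / (24 * (2 * d + 1) ^ n) * (24 * (2 * d + 1) ^ n) ≤ H := Nat.div_mul_le_self _ _
  have h2 : ((H / (24 * (2 * d + 1) ^ n) : ℕ) : ℝ) * (24 * (2 * (d : ℝ) + 1) ^ n) ≤ H := by exact_mod_cast h1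
  linarith

/-- the chosen ranges for the coefficients of the denominator and of the other inequalities -/
noncomputable def rQ (n d H : ℕ) (α : Mono n d) : Finset ℤ :=
  if α = 0 then Icc (((H + 1) / 2 : ℕ) : ℤ) H else Icc (-(sm n d H : ℤ)) (sm n d H)

/-- the chosen ranges for the coefficients of the first inequality -/
noncomputable def rP (n d H : ℕ) (α : Mono n d) : Finset ℤ :=
  if α = 0 then Icc (((H + 1) / 2 : ℕ) : ℤ) H else
    if α ∈ cor n d then Icc (-(H : ℤ)) (-(((H + 1) / 2 : ℕ) : ℤ)) else Icc (-(sm n d H : ℤ)) (sm n d H)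

theorem half_ge (H : ℕ) : (H : ℝ) / 2 ≤ (((H + 1) / 2 : ℕ) : ℝ) := by
  have h : H ≤ 2 * ((H + 1) / 2) := by omega
  have h2 : (H : ℝ) ≤ 2 * (((H + 1) / 2 : ℕ) : ℝ) := by exact_mod_cast h
  linarith

/-- the first inequality bounds the domain -/
theorem first_bound (hd : 1 ≤ d) (H : ℕ) (hH : 1 ≤ H) (c : Poly n d) (hc : ∀ α, c α ∈ rP n d H α)
    (x : Fin n → ℝ) (hx : 0 ≤ ev c x) : Wt d x ≤ 4 := by
  classical
  have hW := Wt_ge (d := d) x
  have hHr : (1 : ℝ) ≤ H := by exact_mod_cast hH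
  have h1 : ev c x ≤ ∑ α : Mono n d, ((if α = 0 then (3 * H / 2 : ℝ) else 0) -
      (if α ∈ cor n d then H / 2 * mono α x else 0) + sm n d H * Wt d x) := by
    unfold ev
    apply sum_le_sum
    intro α _
    have h2 := hc α
    unfold rP at h2
    by_cases h0 : α = 0
    · rw [if_pos h0] at h2
      rw [if_pos h0, if_pos (h0 ▸ zero_mem_cor), h0, mono_zero]
      rw [mem_Icc, h0] at h2
      have h3 : (c 0 : ℝ) ≤ H := by exact_mod_cast h2.2
      have h4 : 0 ≤ (sm n d H : ℝ) * Wt d x := by positivity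
      linarith
    · rw [if_neg h0] at h2
      rw [if_neg h0]
      by_cases h5 : α ∈ cor n d
      · rw [if_pos h5] at h2 ⊢
        rw [mem_Icc] at h2
        have h3 : (c α : ℝ) ≤ -(((H + 1) / 2 : ℕ) : ℝ) := by exact_mod_cast h2.2
        have h6 := half_ge H
        have h7 := cor_nonneg α h5 x
        have h4 : 0 ≤ (sm n d H : ℝ) * Wt d x := by positivity
        nlinarith
      · rw [if_neg h5] at h2 ⊢
        rw [mem_Icc] at h2
        have h3 : |(c α : ℝ)| ≤ sm n d H := by
          rw [abs_le]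
          constructor
          · exact_mod_cast h2.1
          · exact_mod_cast h2.2
        have h6 := mono_le_Wt α x
        have h7 : (c α : ℝ) * mono α x ≤ sm n d H * Wt d x := by
          refine (le_abs_self _).trans ?_
          rw [abs_mul]
          exact mul_le_mul h3 h6 (abs_nonneg _) (Nat.cast_nonneg _)
        linarith
  have h2 : ∑ α : Mono n d, ((if α = 0 then (3 * H / 2 : ℝ) else 0) -
      (if α ∈ cor n d then H / 2 * mono α x else 0) + sm n d H * Wt d x) =
      3 * H / 2 - H / 2 * Wt d x + (2 * (d : ℝ) + 1) ^ n * (sm n d H * Wt d x) := by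
    rw [sum_add_distrib, sum_sub_distrib, sum_ite_eq' univ (0 : Mono n d), if_pos (mem_univ _), sum_const,
      card_univ, card_mono, nsmul_eq_mul]
    congr 1
    · congr 1
      rw [← sum_filter, filter_mem_eq_inter, univ_inter, ← mul_sum, sum_cor hd]
    · push_cast
      ring
  rw [h2] at h1
  have h3 := sm_le n d H
  have h4 : (2 * (d : ℝ) + 1) ^ n * (sm n d H * Wt d x) ≤ H / 24 * Wt d x := by
    calc (2 * (d : ℝ) + 1) ^ n * (sm n d H * Wt d x) = (sm n d H * (2 * (d : ℝ) + 1) ^ n) * Wt d x := by ring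
      _ ≤ _ := mul_le_mul_of_nonneg_right h3 (by linarith)
  have h5 : 0 ≤ (H : ℝ) * (3 / 2 - 11 / 24 * Wt d x) := by linarith
  by_contra h6
  push Not at h6
  have h7 : 3 / 2 - 11 / 24 * Wt d x < 0 := by linarith
  nlinarith

/-- the denominator is not small -/
theorem den_bound (H : ℕ) (c : Poly n d) (hc : ∀ α, c α ∈ rQ n d H α)
    (x : Fin n → ℝ) (hx : Wt d x ≤ 4) : (H : ℝ) / 3 ≤ ev c x := by
  classical
  have hW := Wt_ge (d := d) x
  have h1 : ∑ α : Mono n d, ((if α = 0 then (H / 2 : ℝ) else 0) - sm n d H * Wt d x) ≤ ev c x := by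
    unfold ev
    apply sum_le_sum
    intro α _
    have h2 := hc α
    unfold rQ at h2
    have h4 : 0 ≤ (sm n d H : ℝ) * Wt d x := by positivity
    by_cases h0 : α = 0
    · rw [if_pos h0] at h2
      rw [if_pos h0, h0, mono_zero]
      rw [mem_Icc, h0] at h2
      have h3 : (((H + 1) / 2 : ℕ) : ℝ) ≤ c 0 := by
        have h9 : ((((H + 1) / 2 : ℕ) : ℤ) : ℝ) ≤ ((c 0 : ℤ) : ℝ) := Int.cast_le.2 h2.1
        rwa [Int.cast_natCast] at h9
      have h5 := half_ge H
      linarith
    · rw [if_neg h0] at h2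
      rw [if_neg h0]
      rw [mem_Icc] at h2
      have h3 : |(c α : ℝ)| ≤ sm n d H := by
        rw [abs_le]
        constructor
        · exact_mod_cast h2.1
        · exact_mod_cast h2.2
      have h6 := mono_le_Wt α x
      have h7 : -((sm n d H : ℝ) * Wt d x) ≤ (c α : ℝ) * mono α x := by
        have h8 : |(c α : ℝ) * mono α x| ≤ sm n d H * Wt d x := by
          rw [abs_mul]
          exact mul_le_mul h3 h6 (abs_nonneg _) (Nat.cast_nonneg _)
        exact (abs_le.1 h8).1
      linarith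
  have h2 : ∑ α : Mono n d, ((if α = 0 then (H / 2 : ℝ) else 0) - sm n d H * Wt d x) =
      H / 2 - (2 * (d : ℝ) + 1) ^ n * (sm n d H * Wt d x) := by
    rw [sum_sub_distrib, sum_ite_eq' univ (0 : Mono n d), if_pos (mem_univ _), sum_const,
      card_univ, card_mono, nsmul_eq_mul]
    push_cast
    ring
  rw [h2] at h1
  have h3 := sm_le n d H
  have h4 : (2 * (d : ℝ) + 1) ^ n * (sm n d H * Wt d x) ≤ H / 24 * 4 := by
    calc (2 * (d : ℝ) + 1) ^ n * (sm n d H * Wt d x) = (sm n d H * (2 * (d : ℝ) + 1) ^ n) * Wt d x := by ring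
      _ ≤ _ := mul_le_mul h3 hx (by linarith) (by positivity)
  linarith

theorem num_bound (H : ℕ) (c : Poly n d) (hc : ∀ α, |c α| ≤ H) (x : Fin n → ℝ) (hx : Wt d x ≤ 4) :
    |ev c x| ≤ (2 * (d : ℝ) + 1) ^ n * (H * 4) := by
  unfold ev
  refine (abs_sum_le_sum_abs _ _).trans ?_
  have h1 : ∀ α ∈ (univ : Finset (Mono n d)), |(c α : ℝ) * mono α x| ≤ H * 4 := by
    intro α _
    rw [abs_mul]
    have h3 : |(c α : ℝ)| ≤ H := by exact_mod_cast hc α
    exact mul_le_mul h3 ((mono_le_Wt α x).trans hx) (abs_nonneg _) (Nat.cast_nonneg _)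
  refine (sum_le_card_nsmul _ _ _ h1).trans (le_of_eq ?_)
  rw [card_univ, card_mono, nsmul_eq_mul]
  push_cast
  ring

theorem Wt_box (hd : 1 ≤ d) (x : Fin n → ℝ) (hx : Wt d x ≤ 4) (i : Fin n) : |x i| ≤ 4 := by
  by_contra h
  push Not at h
  have h1 : 1 + x i ^ (2 * d) ≤ Wt d x := by
    unfold Wt
    rw [← mul_prod_erase univ _ (mem_univ i)]
    have h2 : (1 : ℝ) ≤ ∏ j ∈ univ.erase i, (1 + x j ^ (2 * d)) := by
      have h : ∏ _j ∈ univ.erase i, (1 : ℝ) ≤ ∏ j ∈ univ.erase i, (1 + x j ^ (2 * d)) := by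
        apply prod_le_prod
        · intro i _
          exact zero_le_one
        · intro i _
          have := even_nonneg (x i) d
          linarith
      rwa [prod_const_one] at h
    have h3 := even_nonneg (x i) d
    nlinarith
  have h2 : |x i| ≤ x i ^ (2 * d) := by
    have e : x i ^ (2 * d) = |x i| ^ (2 * d) := by rw [pow_mul, ← sq_abs, ← pow_mul]
    rw [e]
    calc |x i| = |x i| ^ 1 := (pow_one _).symm
      _ ≤ |x i| ^ (2 * d) := pow_le_pow_right₀ (by linarith) (by omega)
  linarith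

/-- the good data give convergent integrals with a domain of positive volume -/
theorem good_conv (hd : 1 ≤ d) (H : ℕ) (hH : 1 ≤ H) (s : Fin (k + 1) → Bool) (P Q : Poly n d)
    (p : Fin (k + 1) → Poly n d) (hP : P ∈ box n d H) (hQ : ∀ α, Q α ∈ rQ n d H α)
    (hp0 : ∀ α, p 0 α ∈ rP n d H α) (hp : ∀ j, j ≠ 0 → ∀ α, p j α ∈ rQ n d H α)
    (hpb : p ∈ boxes n (k + 1) d H) :
    Q ≠ 0 ∧ IntegrableOn (fun x => ev P x / ev Q x) (dom s p) ∧ 0 < volume (dom s p) := by
  have hHr : (1 : ℝ) ≤ H := by exact_mod_cast hH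
  have hcoef : ∀ j, (((H + 1) / 2 : ℕ) : ℤ) ≤ p j 0 := by
    intro j
    by_cases hj : j = 0
    · subst hj
      have := hp0 0
      unfold rP at this
      rw [if_pos rfl, mem_Icc] at this
      exact this.1
    · have := hp j hj 0
      unfold rQ at this
      rw [if_pos rfl, mem_Icc] at this
      exact this.1
  refine ⟨?_, ?_, ?_⟩
  · intro h0
    have := hQ 0
    unfold rQ at this
    rw [if_pos rfl, mem_Icc, h0] at this
    simp only [Pi.zero_apply] at this
    omega
  · have hsub : dom s p ⊆ {x | Wt d x ≤ 4} := by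
      intro x hx
      apply first_bound hd H hH (p 0) hp0 x
      have := hx 0
      split_ifs at this
      · exact this.le
      · exact this
    have hsub2 : dom s p ⊆ Set.Icc (fun _ => -4) (fun _ => 4) := by
      intro x hx
      rw [Set.mem_Icc]
      have h1 := fun i => abs_le.1 (Wt_box hd x (hsub hx) i)
      exact ⟨fun i => (h1 i).1, fun i => (h1 i).2⟩
    have hfin : volume (dom s p) < ⊤ := by
      refine (measure_mono hsub2).trans_lt ?_
      exact isCompact_Icc.measure_lt_top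
    have hb : ∀ x ∈ dom s p, ‖ev P x / ev Q x‖ ≤ 12 * (2 * (d : ℝ) + 1) ^ n := by
      intro x hx
      have h1 := num_bound H P (mem_box.1 hP) x (hsub hx)
      have h2 := den_bound H Q hQ x (hsub hx)
      rw [Real.norm_eq_abs, abs_div, abs_of_pos (by linarith : 0 < ev Q x), div_le_iff₀ (by linarith)]
      have h3 : (0 : ℝ) < (2 * (d : ℝ) + 1) ^ n := by positivity
      calc |ev P x| ≤ (2 * (d : ℝ) + 1) ^ n * (H * 4) := h1
        _ = 12 * (2 * (d : ℝ) + 1) ^ n * (H / 3) := by ring
        _ ≤ _ := mul_le_mul_of_nonneg_left h2 (by positivity)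
    refine Measure.integrableOn_of_bounded hfin.ne ?_ (M := 12 * (2 * (d : ℝ) + 1) ^ n) ?_
    · exact ((ev_cont P).measurable.div (ev_cont Q).measurable).aestronglyMeasurable
    · rw [ae_restrict_iff' (dom_meas s p)]
      exact ae_of_all _ hb
  · have hF : Fat ∅ p := by
      refine ⟨0, ?_, ?_⟩
      · intro i
        simp
      · intro j
        have e : corner d (∅ : Finset (Fin n)) = 0 := by
          funext i
          simp [corner]
        rw [e, mono_zero]
        have h1 : ev (p j) 0 = p j 0 := by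
          unfold ev
          rw [sum_eq_single 0]
          · rw [mono_zero, mul_one]
          · intro β _ hβ
            have h2 : ∃ i, β i ≠ 0 := by
              by_contra h
              push Not at h
              exact hβ (funext h)
            obtain ⟨i, hi⟩ := h2
            have h3 : mono β 0 = 0 := by
              unfold mono
              apply prod_eq_zero (mem_univ i)
              simp only [Pi.zero_apply]
              apply zero_pow
              intro h
              apply hi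
              exact Fin.ext h
            rw [h3, mul_zero]
          · intro h
            exact absurd (mem_univ _) h
        rw [h1]
        have h2 : (1 : ℤ) ≤ p j 0 := by
          have := hcoef j
          omega
        exact_mod_cast h2
    refine lt_of_lt_of_le ?_ (vol_ge s p ∅ H hH (mem_boxes.1 hpb) hF)
    rw [ENNReal.ofReal_pos]
    have := rad_pos n d H hH
    positivity

/-- the ranges are long -/
theorem range_small (n d H : ℕ) : 2 * H + 1 ≤ 48 * (2 * d + 1) ^ n * (Icc (-(sm n d H : ℤ)) (sm n d H)).card := by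
  rw [card_int]
  unfold sm
  have hM : 1 ≤ (2 * d + 1) ^ n := Nat.one_le_pow _ _ (by omega)
  set m := 24 * (2 * d + 1) ^ n with hm
  have hm0 : 0 < m := by omega
  have h1 := Nat.lt_div_mul_add (a := H) hm0
  have e : 48 * (2 * d + 1) ^ n = 2 * m := by omega
  rw [e]
  set K := H / m with hK
  have h2 : 2 * m * (2 * K + 1) = 4 * (K * m) + 2 * m := by ring
  rw [h2]
  omega

theorem range_half (n d H : ℕ) (hH : 1 ≤ H) :
    2 * H + 1 ≤ 48 * (2 * d + 1) ^ n * (Icc (((H + 1) / 2 : ℕ) : ℤ) H).card := by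
  have hM : 1 ≤ (2 * d + 1) ^ n := Nat.one_le_pow _ _ (by omega)
  rw [Int.card_Icc]
  have h1 : H ≤ 2 * ((H : ℤ) + 1 - (((H + 1) / 2 : ℕ) : ℤ)).toNat := by omega
  calc 2 * H + 1 ≤ 48 * 1 * ((H : ℤ) + 1 - (((H + 1) / 2 : ℕ) : ℤ)).toNat := by omega
    _ ≤ _ := Nat.mul_le_mul_right _ (Nat.mul_le_mul_left _ hM)

theorem range_neg (n d H : ℕ) (hH : 1 ≤ H) :
    2 * H + 1 ≤ 48 * (2 * d + 1) ^ n * (Icc (-(H : ℤ)) (-(((H + 1) / 2 : ℕ) : ℤ))).card := by
  have hM : 1 ≤ (2 * d + 1) ^ n := Nat.one_le_pow _ _ (by omega)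
  rw [Int.card_Icc]
  have h1 : H ≤ 2 * (-(((H + 1) / 2 : ℕ) : ℤ) + 1 - -(H : ℤ)).toNat := by omega
  calc 2 * H + 1 ≤ 48 * 1 * (-(((H + 1) / 2 : ℕ) : ℤ) + 1 - -(H : ℤ)).toNat := by omega
    _ ≤ _ := Nat.mul_le_mul_right _ (Nat.mul_le_mul_left _ hM)

theorem rQ_card (n d H : ℕ) (hH : 1 ≤ H) (α : Mono n d) :
    2 * H + 1 ≤ 48 * (2 * d + 1) ^ n * (rQ n d H α).card := by
  unfold rQ
  split_ifs
  · exact range_half n d H hH
  · exact range_small n d H

theorem rP_card (n d H : ℕ) (hH : 1 ≤ H) (α : Mono n d) :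
    2 * H + 1 ≤ 48 * (2 * d + 1) ^ n * (rP n d H α).card := by
  unfold rP
  split_ifs
  · exact range_half n d H hH
  · exact range_neg n d H hH
  · exact range_small n d H

theorem sm_le_H (n d H : ℕ) : sm n d H ≤ H := by
  unfold sm
  exact Nat.div_le_self _ _

theorem rQ_box (n d H : ℕ) (α : Mono n d) (a : ℤ) (h : a ∈ rQ n d H α) : |a| ≤ H := by
  have h1 := sm_le_H n d H
  unfold rQ at h
  rw [abs_le]
  split_ifs at h <;> rw [mem_Icc] at h <;> constructor <;> omega

theorem rP_box (n d H : ℕ) (α : Mono n d) (a : ℤ) (h : a ∈ rP n d H α) : |a| ≤ H := by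
  have h1 := sm_le_H n d H
  unfold rP at h
  rw [abs_le]
  split_ifs at h <;> rw [mem_Icc] at h <;> constructor <;> omega

theorem pi_card {ι : Type} [Fintype ι] [DecidableEq ι] (r : ι → Finset ℤ) (a b : ℕ)
    (h : ∀ i, a ≤ b * (r i).card) : a ^ Fintype.card ι ≤ b ^ Fintype.card ι * (Fintype.piFinset r).card := by
  rw [Fintype.card_piFinset, ← card_univ, ← prod_const, ← prod_const, ← prod_mul_distrib]
  exact prod_le_prod' fun i _ => h i

end Pool.Agent.H40.RI
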